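import Pool.Agent.H27.L1.H34.GA.Targets1
import Pool.Agent.H27.L1.H34.GM.TH1
import Pool.Agent.H27.L1.H46.GU.MSU

/-!
Row RRN of the board ga: the norm of the convolution operators (helper91).
-/

set_option autoImplicit false

namespace Pool.Agent.H27.L1.H91.GA

open MeasureTheory Pool.Agent.H27.L1.H34.GM Pool.Agent.H27.L1.H34.GZ Pool.Agent.H27.L1.H34.GU Pool.Agent.H27.L1.H34.GA
open Pool.Agent.H27.L1.H46.GU (cs cR_det fz wd fz_eq fn_meas wd_meas prod_meas dom_det)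
open scoped ENNReal

/-- Cauchy's inequality with a weight -/
theorem csw {X : Type} [MeasurableSpace X] (μ : Measure X) {a f : X → ℝ≥0∞} (ha : Measurable a)
    (hf : Measurable f) :
    (∫⁻ x, a x * f x ∂μ) ^ 2 ≤ (∫⁻ x, a x ∂μ) * ∫⁻ x, a x * f x ^ 2 ∂μ := by
  have h := cs (μ.withDensity a) hf
  rw [lintegral_withDensity_eq_lintegral_mul μ ha hf,
    lintegral_withDensity_eq_lintegral_mul μ ha (hf.pow_const 2),
    withDensity_apply _ MeasurableSet.univ, Measure.restrict_univ] at h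
  exact h

/-- the density is invariant -/
theorem rrn_inv {m N : ℕ} [NeZero N] {T : ℕ → Finset (ZM m)} {F : Mat m → VN m N → ℂ}
    {lam : ℕ → ℂ} (hF : HecA m N T F lam) {γ : ZM m} (hγ : IsUnit γ)
    (hbij : Function.Bijective (ac N γ : VN m N → VN m N))
    {z : V m} (hz : (mt z).det ≠ 0) :
    wd F (fun i j => (cR γ * mt z) i j) = wd F z := by
  have hd : (mt (fun i j => (cR γ * mt z) i j) : Mat m).det ≠ 0 := by
    show (cR γ * mt z).det ≠ 0
    rw [Matrix.det_mul]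
    exact mul_ne_zero (cR_det hγ) hz
  unfold wd
  rw [← Equiv.sum_comp (Equiv.ofBijective _ hbij) fun y =>
    ENNReal.ofReal ‖fz F y (fun i j => (cR γ * mt z) i j)‖ ^ 2]
  refine Finset.sum_congr rfl fun x _ => ?_
  rw [fz_eq F _ hd, fz_eq F _ hz]
  have h1 : F (mt (fun i j => (cR γ * mt z) i j)) (Equiv.ofBijective _ hbij x) =
      F (mt z) x := by
    have := hF.auto γ hγ (mt z) x hz
    exact this
  rw [h1]

theorem rrn_scal {m N : ℕ} [NeZero N] {T : ℕ → Finset (ZM m)} {F : Mat m → VN m N → ℂ}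
    {lam : ℕ → ℂ} (hF : HecA m N T F lam) {c : ℝ} (hc : 0 < c)
    {z : V m} (hz : (mt z).det ≠ 0) : wd F (c • z) = wd F z := by
  have h0 : (mt (c • z) : Mat m) = c • mt z := rfl
  have hd : (mt (c • z)).det ≠ 0 := by
    rw [h0, Matrix.det_smul]
    exact mul_ne_zero (pow_ne_zero _ hc.ne') hz
  unfold wd
  refine Finset.sum_congr rfl fun x _ => ?_
  rw [fz_eq F _ hd, fz_eq F _ hz, h0, hF.scal c hc (mt z) x hz]

theorem inv_det {m : ℕ} {v : Mat m} (hv : v.det ≠ 0) : (v⁻¹).det ≠ 0 := by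
  rw [Matrix.det_nonsing_inv, Ring.inverse_eq_inv']
  exact inv_ne_zero hv

/-- the weight -/
noncomputable def wa {m : ℕ} (k : Mat m → ℂ) (r : ℝ) (v : V m) : ℝ≥0∞ :=
  ENNReal.ofReal ‖k ((r⁻¹ * (aN (mt v))⁻¹) • mt v)‖

/-- right translation by the inverse -/
noncomputable def tr {m : ℕ} (z v : V m) : V m := fun i j => (mt z * (mt v)⁻¹) i j

theorem wa_meas (hM : T_MSR) {m : ℕ} {k : Mat m → ℂ} (hk : Tg m k) (r : ℝ) :
    Measurable (wa k r) := ENNReal.measurable_ofReal.comp (th1_meas hM hk.cont r⁻¹).norm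

theorem tr_meas (hM : T_MSR) (m : ℕ) : Measurable fun p : V m × V m => tr p.1 p.2 :=
  prod_meas hM m

theorem fz_tr {m N : ℕ} (F : Mat m → VN m N → ℂ) (x : VN m N) {z v : V m}
    (hz : (mt z).det ≠ 0) (hv : (mt v).det ≠ 0) : fz F x (tr z v) = F (mt z * (mt v)⁻¹) x := by
  have hd : (mt z * (mt v)⁻¹).det ≠ 0 := by
    rw [Matrix.det_mul]
    exact mul_ne_zero hz (inv_det hv)
  exact fz_eq F x (z := tr z v) hd

/-- the pointwise bound -/
theorem rrn_pt (hM : T_MSR) {m N : ℕ} (hm1 : 1 ≤ m) (hSh : MeasurableSet (Shell m))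
    {k : Mat m → ℂ} (hk : Tg m k) (r : ℝ) {F : Mat m → VN m N → ℂ}
    (hc : ∀ x, ContinuousOn (fun g => F g x) {g | g.det ≠ 0}) (x : VN m N) {z : V m}
    (hz : (mt z).det ≠ 0) : ENNReal.ofReal (‖Rr k r F (mt z) x‖ ^ 2) ≤
      (∫⁻ v in Shell m, wa k r v ∂(hm m)) * ∫⁻ v in Shell m, wa k r v *
        ENNReal.ofReal ‖fz F x (tr z v)‖ ^ 2 ∂(hm m) := by
  have hmz : Measurable fun v : V m => ENNReal.ofReal ‖fz F x (tr z v)‖ :=
    (fn_meas hM hc x).comp ((tr_meas hM m).comp (measurable_const.prodMk measurable_id))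
  have h2 : ENNReal.ofReal ‖Rr k r F (mt z) x‖ ≤ ∫⁻ v in Shell m, wa k r v *
      ENNReal.ofReal ‖fz F x (tr z v)‖ ∂(hm m) := by
    rw [ofReal_norm]
    refine (enorm_integral_le_lintegral_enorm _).trans (le_of_eq ?_)
    refine setLIntegral_congr_fun hSh fun v hv => ?_
    show ‖k ((r⁻¹ * (aN (mt v))⁻¹) • mt v) * F (mt z * (mt v)⁻¹) x‖ₑ =
      wa k r v * ENNReal.ofReal ‖fz F x (tr z v)‖
    rw [fz_tr F x hz (th1_det_ne hm1 hv), enorm_mul, ofReal_norm, wa, ofReal_norm]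
  rw [ENNReal.ofReal_pow (norm_nonneg _)]
  exact (pow_le_pow_left' h2 2).trans (csw _ (wa_meas hM hk r) hmz)

/-- the mass -/
theorem rrn_mass (hM : T_MSR) {m N : ℕ} [NeZero N] (hm1 : 1 ≤ m) {D : Set (V m)}
    (hD : DomZ m D) {F : Mat m → VN m N → ℂ}
    (hc : ∀ x, ContinuousOn (fun g => F g x) {g | g.det ≠ 0}) :
    ∑ x, ∫⁻ z in D, ENNReal.ofReal (‖F (mt z) x‖ ^ 2) ∂(hm m) =
      ∫⁻ z in D, wd F z ∂(hm m) := by
  have h3 : ∀ x : VN m N, ∫⁻ z in D, ENNReal.ofReal (‖F (mt z) x‖ ^ 2) ∂(hm m) =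
      ∫⁻ z in D, ENNReal.ofReal ‖fz F x z‖ ^ 2 ∂(hm m) := fun x => by
    refine setLIntegral_congr_fun hD.meas fun z hz => ?_
    show ENNReal.ofReal (‖F (mt z) x‖ ^ 2) = ENNReal.ofReal ‖fz F x z‖ ^ 2
    rw [fz_eq F x (dom_det hm1 hD hz), ENNReal.ofReal_pow (norm_nonneg _)]
  rw [Finset.sum_congr rfl fun x _ => h3 x]
  rw [← lintegral_finsetSum _ fun x _ => (fn_meas hM hc x).pow_const 2]
  rfl

/-- the sum over `x` -/
theorem rrn_sum (hM : T_MSR) {m N : ℕ} [NeZero N] {k : Mat m → ℂ} (hk : Tg m k) (r : ℝ)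
    {F : Mat m → VN m N → ℂ} (hc : ∀ x, ContinuousOn (fun g => F g x) {g | g.det ≠ 0})
    (L : ℝ≥0∞) (z : V m) :
    ∑ x : VN m N, L * ∫⁻ v in Shell m, wa k r v *
      ENNReal.ofReal ‖fz F x (tr z v)‖ ^ 2 ∂(hm m) =
      L * ∫⁻ v in Shell m, wa k r v * wd F (tr z v) ∂(hm m) := by
  have hmz : ∀ x : VN m N, Measurable fun v : V m => ENNReal.ofReal ‖fz F x (tr z v)‖ :=
    fun x => (fn_meas hM hc x).comp ((tr_meas hM m).comp (measurable_const.prodMk measurable_id))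
  have hmy : ∀ x : VN m N, Measurable fun v : V m =>
      wa k r v * ENNReal.ofReal ‖fz F x (tr z v)‖ ^ 2 :=
    fun x => (wa_meas hM hk r).mul ((hmz x).pow_const 2)
  rw [← Finset.mul_sum, ← lintegral_finsetSum _ fun x _ => hmy x]
  congr 1
  refine lintegral_congr fun v => ?_
  rw [← Finset.mul_sum]
  rfl

theorem pf_RRN : T_RTI → T_ALU → T_MSR → T_RRN := by
  intro hR hA hM m N _ T D hS F lam hF k hk r hr
  have hm1 := hS.one_le
  have hD := hS.dom
  obtain ⟨-, -, -, -, hσ, hSh, -, -⟩ := hM.1 m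
  have hbij := (hA m N hm1 hS.two_le).2.2.2.2.2
  have ham := wa_meas hM hk r
  have hmp : ∀ x : VN m N, Measurable fun p : V m × V m =>
      ENNReal.ofReal ‖fz F x (tr p.1 p.2)‖ := fun x =>
    (fn_meas hM hF.cont x).comp (tr_meas hM m)
  have hW : Measurable fun p : V m × V m => wa k r p.2 * wd F (tr p.1 p.2) :=
    (ham.comp measurable_snd).mul ((wd_meas hM hF.cont).comp (tr_meas hM m))
  have h5 : ∀ v ∈ Shell m, ∫⁻ z in D, wd F (tr z v) ∂(hm m) =
      ∫⁻ z in D, wd F z ∂(hm m) := by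
    intro v hv
    exact hR m hm1 D hD (wd F) (wd_meas hM hF.cont)
      (fun γ hγ z hz => rrn_inv hF hγ (hbij γ hγ) hz) (fun c hc z hz => rrn_scal hF hc hz)
      (mt v)⁻¹ (inv_det (th1_det_ne hm1 hv))
  rw [rrn_mass hM hm1 hD hF.cont]
  show _ ≤ (∫⁻ v in Shell m, wa k r v ∂(hm m)) ^ 2 * _
  calc ∑ x, ∫⁻ z in D, ENNReal.ofReal (‖Rr k r F (mt z) x‖ ^ 2) ∂(hm m)
      ≤ ∑ x, ∫⁻ z in D, (∫⁻ v in Shell m, wa k r v ∂(hm m)) * ∫⁻ v in Shell m, wa k r v *
        ENNReal.ofReal ‖fz F x (tr z v)‖ ^ 2 ∂(hm m) ∂(hm m) :=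
        Finset.sum_le_sum fun x _ => setLIntegral_mono' hD.meas fun z hz =>
          rrn_pt hM hm1 hSh hk r hF.cont x (dom_det hm1 hD hz)
    _ = ∫⁻ z in D, (∫⁻ v in Shell m, wa k r v ∂(hm m)) * ∫⁻ v in Shell m,
        wa k r v * wd F (tr z v) ∂(hm m) ∂(hm m) := by
        rw [← lintegral_finsetSum]
        · exact lintegral_congr fun z => rrn_sum hM hk r hF.cont _ z
        · intro x _
          refine Measurable.const_mul ?_ _
          exact Measurable.lintegral_prod_right' (f := fun p : V m × V m => wa k r p.2 *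
              ENNReal.ofReal ‖fz F x (tr p.1 p.2)‖ ^ 2)
            ((ham.comp measurable_snd).mul ((hmp x).pow_const 2))
    _ = (∫⁻ v in Shell m, wa k r v ∂(hm m)) * ∫⁻ z in D, ∫⁻ v in Shell m,
        wa k r v * wd F (tr z v) ∂(hm m) ∂(hm m) :=
        lintegral_const_mul _ (Measurable.lintegral_prod_right' hW)
    _ = (∫⁻ v in Shell m, wa k r v ∂(hm m)) * ∫⁻ v in Shell m, ∫⁻ z in D,
        wa k r v * wd F (tr z v) ∂(hm m) ∂(hm m) := by
        rw [lintegral_lintegral_swap hW.aemeasurable]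
    _ = (∫⁻ v in Shell m, wa k r v ∂(hm m)) * ∫⁻ v in Shell m, wa k r v *
        ∫⁻ z in D, wd F z ∂(hm m) ∂(hm m) := by
        congr 1
        refine setLIntegral_congr_fun hSh fun v hv => ?_
        show ∫⁻ z in D, wa k r v * wd F (tr z v) ∂(hm m) = wa k r v * ∫⁻ z in D, wd F z ∂(hm m)
        have h6 : Measurable fun z : V m => wd F (tr z v) := (wd_meas hM hF.cont).comp
          ((tr_meas hM m).comp (measurable_id.prodMk measurable_const))
        rw [lintegral_const_mul _ h6, h5 v hv]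
    _ = (∫⁻ v in Shell m, wa k r v ∂(hm m)) ^ 2 * ∫⁻ z in D, wd F z ∂(hm m) := by
        rw [lintegral_mul_const _ ham, sq, mul_assoc]

end Pool.Agent.H27.L1.H91.GA
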